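import Pool.Agent.Helper83.CO.St
import Pool.Agent.Helper53.CX.M_Mon
import Pool.Agent.Helper53.CX.M_Gen
import Pool.Agent.Helper53.CX.M_Sum

/-!
Project CO (MP_140278_ag), module EX: the monomial valuation at a point of the projective line.
-/

set_option autoImplicit false

open scoped BigOperators
open MvPolynomial

namespace Pool.Agent.Helper1.CO

open Pool.Agent.Helper53.CX Pool.Agent.Helper83.CO

/-- value of a toric valuation on polynomials -/
theorem EX_toric (hExt : StExt) (hMon : StMon) {n : ℕ} (b : Fin n → ℤ) (v : DivVal (Kn n))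
    (hv : v.ord = monOrd b) (q : Pn n) (hq : q ≠ 0) :
    v.ord (algebraMap (Pn n) (Kn n) q) = monO b q := by
  obtain ⟨h1, h2⟩ := hMon n b
  obtain ⟨-, -, -, h3⟩ := hExt n (monO b) h1 h2
  rw [hv]
  exact h3 q hq

theorem EX_ys_zero_some {k : ℕ} (p : ℂ) :
    (ys (some p) : Fin (k + 1) → Kn (k + 1)) 0 = x 0 - algebraMap ℂ (Kn (k + 1)) p := rfl

theorem EX_ys_zero_none {k : ℕ} : (ys none : Fin (k + 1) → Kn (k + 1)) 0 = (x 0)⁻¹ := rfl

theorem EX_ys_succ {k : ℕ} (s : Option ℂ) (j : Fin k) :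
    (ys s : Fin (k + 1) → Kn (k + 1)) j.succ = x j.succ := by
  cases s <;> rfl

theorem EX_aeval_x {n : ℕ} (f : Pn n) : aeval (x : Fin n → Kn n) f = algebraMap (Pn n) (Kn n) f := by
  have h : aeval (x : Fin n → Kn n) = IsScalarTower.toAlgHom ℂ (Pn n) (Kn n) := by
    apply MvPolynomial.algHom_ext
    intro i
    simp [x]
  rw [h]
  rfl

/-! ### Finite points -/

/-- the substitution `X_0 ↦ X_0 + p` -/
noncomputable def shf (k : ℕ) (p : ℂ) : Pn (k + 1) →ₐ[ℂ] Pn (k + 1) :=
  aeval (Fin.cons (X 0 + C p) (fun j => X j.succ))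

theorem EX_shf {k : ℕ} (p : ℂ) (f : Pn (k + 1)) :
    aeval (ys (some p) : Fin (k + 1) → Kn (k + 1)) (shf k p f) =
      algebraMap (Pn (k + 1)) (Kn (k + 1)) f := by
  have h : (aeval (ys (some p) : Fin (k + 1) → Kn (k + 1))).comp (shf k p) =
      IsScalarTower.toAlgHom ℂ (Pn (k + 1)) (Kn (k + 1)) := by
    apply MvPolynomial.algHom_ext
    intro i
    refine Fin.cases ?_ (fun j => ?_) i
    · simp [shf, EX_ys_zero_some, x]
    · simp [shf, EX_ys_succ, x]
  have h2 := congrArg (fun φ => φ f) h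
  exact h2

theorem EX_phi_shf {k : ℕ} (p : ℂ) (f : Pn (k + 1)) (m : Fin k →₀ ℕ) :
    (Phi k (shf k p f)).coeff m = Polynomial.taylor p ((Phi k f).coeff m) := by
  have h : (Phi k).comp (shf k p) =
      (MvPolynomial.mapAlgHom (Polynomial.taylorAlgHom p)).comp (Phi k) := by
    apply MvPolynomial.algHom_ext
    intro i
    refine Fin.cases ?_ (fun j => ?_) i
    · simp [shf, Phi, Polynomial.taylor_X]
    · simp [shf, Phi]
  have h2 := congrArg (fun φ => (φ f).coeff m) h
  simp only [AlgHom.comp_apply, MvPolynomial.mapAlgHom_apply, MvPolynomial.coeff_map] at h2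
  exact h2

theorem EX_full {k : ℕ} (p : ℂ) :
    IntermediateField.adjoin ℂ (Set.range (ys (some p) : Fin (k + 1) → Kn (k + 1))) = ⊤ := by
  apply Gen_top
  intro j
  set E := IntermediateField.adjoin ℂ (Set.range (ys (some p) : Fin (k + 1) → Kn (k + 1))) with hE
  have hy : ∀ i, (ys (some p) : Fin (k + 1) → Kn (k + 1)) i ∈ E := fun i =>
    IntermediateField.subset_adjoin ℂ _ ⟨i, rfl⟩
  refine Fin.cases ?_ (fun j => ?_) j
  · have h := E.add_mem (hy 0) (E.algebraMap_mem p)
    rw [EX_ys_zero_some, sub_add_cancel] at h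
    exact h
  · have h := hy j.succ
    rw [EX_ys_succ] at h
    exact h

/-- the case of a finite point -/
theorem EX_some (hPHI : StPHI) (hExt : StExt) (hMon : StMon) (hTorV : StTorV) (hTau : StTau)
    (k : ℕ) (p : ℂ) (a u : Fin (k + 1) → ℤ) (ha : 0 ≤ a 0) (hu : ∑ j, a j * u j = 1) :
    ∃ v : DivVal (Kn (k + 1)), IsToricIn (ys (some p)) v a ∧ IsVal v (some p) a := by
  obtain ⟨τ, hτ⟩ := hTau (k + 1) (ys (some p)) (EX_full p)
  obtain ⟨va, hva⟩ := hTorV (k + 1) a u hu
  obtain ⟨hP1, hP2, hP3, -, -⟩ := hPHI k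
  have hτq : ∀ q : Pn (k + 1), τ.symm (aeval (ys (some p)) q) =
      algebraMap (Pn (k + 1)) (Kn (k + 1)) q := by
    intro q
    have h1 : aeval (ys (some p)) q = τ (algebraMap (Pn (k + 1)) (Kn (k + 1)) q) := by
      rw [← EX_aeval_x]
      have h2 : ((τ : Kn (k + 1) →ₐ[ℂ] Kn (k + 1)).comp (aeval (x : Fin (k + 1) → Kn (k + 1)))) =
          aeval (ys (some p)) := by
        rw [MvPolynomial.comp_aeval]
        congr 1
        funext i
        exact hτ i
      rw [← h2]
      rfl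
    rw [h1, AlgEquiv.symm_apply_apply]
  have hv : ∀ q : Pn (k + 1), q ≠ 0 → (pull τ.symm va).ord (aeval (ys (some p)) q) = monO a q := by
    intro q hq
    change va.ord (τ.symm (aeval (ys (some p)) q)) = _
    rw [hτq, EX_toric hExt hMon a va hva q hq]
  refine ⟨pull τ.symm va, ?_, ?_⟩
  · intro q hq
    rw [hv q hq]
    exact ⟨fun m hm => Mon_le a hq hm, Mon_ex a hq⟩
  · intro f hf
    have hq : shf k p f ≠ 0 := by
      intro h
      have h1 := EX_shf p f
      rw [h, map_zero] at h1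
      exact Sum_alg_ne f hf h1.symm
    have h0 : (pull τ.symm va).ord (algebraMap (Pn (k + 1)) (Kn (k + 1)) f) = monO a (shf k p f) := by
      rw [← EX_shf p f, hv _ hq]
    have hc : ∀ m i, (Polynomial.taylor p ((Phi k f).coeff m)).coeff i =
        (shf k p f).coeff (Finsupp.cons i m) := by
      intro m i
      rw [← EX_phi_shf, hP1]
    have hz : ∀ m, zs (some p) ((Phi k f).coeff m) =
        ((Polynomial.taylor p ((Phi k f).coeff m)).natTrailingDegree : ℤ) := by
      intro m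
      unfold zs
      simp only [Polynomial.taylor_apply, Polynomial.rootMultiplicity_eq_natTrailingDegree]
    have hle : ∀ m ∈ (Phi k f).support, monO a (shf k p f) ≤
        pr a (zs (some p) ((Phi k f).coeff m)) (fun j => (m j : ℤ)) := by
      intro m hm
      rw [hz m]
      have hne : Polynomial.taylor p ((Phi k f).coeff m) ≠ 0 := by
        rw [Ne, ← map_zero (Polynomial.taylor p), (Polynomial.taylor_injective p).eq_iff]
        exact MvPolynomial.mem_support_iff.1 hm
      have h1 : (shf k p f).coeff (Finsupp.cons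
          (Polynomial.taylor p ((Phi k f).coeff m)).natTrailingDegree m) ≠ 0 := by
        rw [← hc]
        exact Polynomial.trailingCoeff_nonzero_iff_nonzero.2 hne
      have h2 := Mon_le a hq (MvPolynomial.mem_support_iff.2 h1)
      rw [hP3] at h2
      exact h2
    rw [h0]
    refine ⟨hle, ?_⟩
    obtain ⟨μ, hμ, hμ2⟩ := Mon_ex a hq
    obtain ⟨i, m, rfl⟩ : ∃ i m, μ = Finsupp.cons i m := ⟨μ 0, μ.tail, (Finsupp.cons_tail μ).symm⟩
    have h1 : (Polynomial.taylor p ((Phi k f).coeff m)).coeff i ≠ 0 := by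
      rw [hc]
      exact MvPolynomial.mem_support_iff.1 hμ
    have hm : m ∈ (Phi k f).support := by
      rw [MvPolynomial.mem_support_iff]
      intro h
      rw [h, map_zero] at h1
      exact h1 rfl
    refine ⟨m, hm, le_antisymm (hle m hm) ?_⟩
    rw [hμ2, hP3, hz m]
    unfold pr
    have h2 : ((Polynomial.taylor p ((Phi k f).coeff m)).natTrailingDegree : ℤ) ≤ (i : ℤ) := by
      exact_mod_cast Polynomial.natTrailingDegree_le_of_ne_zero h1
    have h3 := mul_le_mul_of_nonneg_left h2 ha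
    linarith

/-! ### The point at infinity -/

/-- the weights with the sign of the first one changed -/
def ng {k : ℕ} (a : Fin (k + 1) → ℤ) : Fin (k + 1) → ℤ := Fin.cons (- a 0) (fun j => a j.succ)

/-- the exponent `(N - m_0, m_1, ..)` -/
noncomputable def flp {k : ℕ} (N : ℕ) (m : Fin (k + 1) →₀ ℕ) : Fin (k + 1) →₀ ℕ :=
  Finsupp.cons (N - m 0) m.tail

theorem EX_flp_inj {k : ℕ} (N : ℕ) (m m' : Fin (k + 1) →₀ ℕ) (h : m 0 ≤ N) (h' : m' 0 ≤ N)
    (he : flp N m = flp N m') : m = m' := by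
  have h0 : N - m 0 = N - m' 0 := by
    have := congrArg (fun μ => μ 0) he
    simpa [flp] using this
  have h1 : ∀ j : Fin k, m j.succ = m' j.succ := by
    intro j
    have := congrArg (fun μ => μ j.succ) he
    simpa [flp, Finsupp.tail_apply] using this
  ext i
  refine Fin.cases ?_ (fun j => ?_) i
  · omega
  · exact h1 j

theorem EX_wt_flp {k : ℕ} (a : Fin (k + 1) → ℤ) (N : ℕ) (m : Fin (k + 1) →₀ ℕ) (h : m 0 ≤ N) :
    wt (ng a) (flp N m) = wt a m - a 0 * N := by
  unfold wt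
  rw [Fin.sum_univ_succ, Fin.sum_univ_succ (f := fun j => a j * (m j : ℤ))]
  have h0 : ((flp N m 0 : ℕ) : ℤ) = (N : ℤ) - m 0 := by
    have : flp N m 0 = N - m 0 := by simp [flp]
    rw [this]
    omega
  have h1 : ∀ j : Fin k, flp N m j.succ = m j.succ := fun j => by simp [flp, Finsupp.tail_apply]
  have h2 : ∀ j : Fin k, ng a j.succ = a j.succ := fun j => rfl
  have h3 : ng a 0 = - a 0 := rfl
  simp only [h1, h2, h3, h0]
  ring

/-- the polynomial `x_0^N q(1/x_0, x_1, ..)` -/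
noncomputable def rv {k : ℕ} (N : ℕ) (q : Pn (k + 1)) : Pn (k + 1) :=
  ∑ m ∈ q.support, monomial (flp N m) (q.coeff m)

theorem EX_rv_coeff {k : ℕ} (N : ℕ) (q : Pn (k + 1)) (hN : ∀ m ∈ q.support, m 0 ≤ N)
    (m : Fin (k + 1) →₀ ℕ) (hm : m ∈ q.support) : (rv N q).coeff (flp N m) = q.coeff m := by
  classical
  unfold rv
  rw [MvPolynomial.coeff_sum, Finset.sum_eq_single_of_mem m hm]
  · rw [MvPolynomial.coeff_monomial, if_pos rfl]
  · intro m' hm' hne
    rw [MvPolynomial.coeff_monomial, if_neg]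
    exact fun h => hne (EX_flp_inj N m' m (hN m' hm') (hN m hm) h)

theorem EX_rv_supp {k : ℕ} (N : ℕ) (q : Pn (k + 1)) (μ : Fin (k + 1) →₀ ℕ)
    (hμ : μ ∈ (rv N q).support) : ∃ m ∈ q.support, μ = flp N m := by
  classical
  rw [MvPolynomial.mem_support_iff] at hμ
  unfold rv at hμ
  rw [MvPolynomial.coeff_sum] at hμ
  obtain ⟨m, hm, h⟩ := Finset.exists_ne_zero_of_sum_ne_zero hμ
  rw [MvPolynomial.coeff_monomial] at h
  refine ⟨m, hm, ?_⟩
  by_contra hne
  exact h (if_neg fun h' => hne h'.symm)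

theorem EX_rv_eval {k : ℕ} (N : ℕ) (q : Pn (k + 1)) (hN : ∀ m ∈ q.support, m 0 ≤ N) :
    algebraMap (Pn (k + 1)) (Kn (k + 1)) (rv N q) =
      x 0 ^ N * aeval (ys none : Fin (k + 1) → Kn (k + 1)) q := by
  have hx : (x 0 : Kn (k + 1)) ≠ 0 := Sum_x_ne 0
  conv_rhs => rw [q.as_sum]
  unfold rv
  rw [map_sum, map_sum, Finset.mul_sum]
  refine Finset.sum_congr rfl fun m hm => ?_
  rw [← EX_aeval_x, MvPolynomial.aeval_monomial, MvPolynomial.aeval_monomial]
  rw [Finsupp.prod_fintype _ _ (fun i => by simp), Finsupp.prod_fintype _ _ (fun i => by simp)]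
  rw [Fin.prod_univ_succ, Fin.prod_univ_succ]
  have h1 : ∀ j : Fin k, flp N m j.succ = m j.succ := fun j => by simp [flp, Finsupp.tail_apply]
  have h0 : flp N m 0 = N - m 0 := by simp [flp]
  simp only [h1, h0, EX_ys_succ, EX_ys_zero_none]
  have h2 : (x 0 : Kn (k + 1)) ^ (N - m 0) = x 0 ^ N * (x 0)⁻¹ ^ (m 0) := by
    have h3 : (x 0 : Kn (k + 1)) ^ N = x 0 ^ (N - m 0) * x 0 ^ (m 0) := by
      rw [← pow_add, Nat.sub_add_cancel (hN m hm)]
    rw [h3, inv_pow, mul_assoc, mul_inv_cancel₀ (pow_ne_zero _ hx), mul_one]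
  rw [h2]
  ring

/-- the case of the point at infinity -/
theorem EX_none (hPHI : StPHI) (hExt : StExt) (hMon : StMon) (hTorV : StTorV)
    (k : ℕ) (a u : Fin (k + 1) → ℤ) (ha : 0 ≤ a 0) (hu : ∑ j, a j * u j = 1) :
    ∃ v : DivVal (Kn (k + 1)), IsToricIn (ys none) v a ∧ IsVal v none a := by
  obtain ⟨hP1, hP2, hP3, -, -⟩ := hPHI k
  have hu' : ∑ j, ng a j * ng u j = 1 := by
    rw [Fin.sum_univ_succ] at hu ⊢
    have h3 : ng a 0 = - a 0 := rfl
    have h4 : ng u 0 = - u 0 := rfl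
    have h2 : ∀ j : Fin k, ng a j.succ = a j.succ := fun j => rfl
    have h5 : ∀ j : Fin k, ng u j.succ = u j.succ := fun j => rfl
    simp only [h2, h3, h4, h5]
    linarith
  obtain ⟨v, hv⟩ := hTorV (k + 1) (ng a) (ng u) hu'
  have hval := EX_toric hExt hMon (ng a) v hv
  have hx0 : v.ord (x 0) = - a 0 := by
    rw [hv, Sum_monx hExt hMon]
    rfl
  have hx : (x 0 : Kn (k + 1)) ≠ 0 := Sum_x_ne 0
  refine ⟨v, ?_, ?_⟩
  · intro q hq
    obtain ⟨N, hN⟩ : ∃ N : ℕ, ∀ m ∈ q.support, m 0 ≤ N :=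
      ⟨q.support.sup fun m => m 0, fun m hm => Finset.le_sup (f := fun m : Fin (k + 1) →₀ ℕ => m 0) hm⟩
    obtain ⟨m0, hm0⟩ := Mon_nonempty hq
    have hr : rv N q ≠ 0 := by
      intro h
      have h1 := EX_rv_coeff N q hN m0 hm0
      rw [h, MvPolynomial.coeff_zero] at h1
      exact MvPolynomial.mem_support_iff.1 hm0 h1.symm
    have he := EX_rv_eval N q hN
    have hne : aeval (ys none : Fin (k + 1) → Kn (k + 1)) q ≠ 0 := by
      intro h
      rw [h, mul_zero] at he
      exact Sum_alg_ne _ hr he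
    have h1 : v.ord (aeval (ys none : Fin (k + 1) → Kn (k + 1)) q) = monO (ng a) (rv N q) + a 0 * N := by
      rw [← hval _ hr, he, v.ord_mul _ _ (pow_ne_zero _ hx) hne, Sum_ord_pow v _ hx, hx0]
      ring
    rw [h1]
    constructor
    · intro m hm
      have h2 : flp N m ∈ (rv N q).support := by
        rw [MvPolynomial.mem_support_iff, EX_rv_coeff N q hN m hm]
        exact MvPolynomial.mem_support_iff.1 hm
      have h3 := Mon_le (ng a) hr h2
      rw [EX_wt_flp a N m (hN m hm)] at h3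
      linarith
    · obtain ⟨μ, hμ, hμ2⟩ := Mon_ex (ng a) hr
      obtain ⟨m, hm, rfl⟩ := EX_rv_supp N q μ hμ
      refine ⟨m, hm, ?_⟩
      rw [hμ2, EX_wt_flp a N m (hN m hm)]
      ring
  · intro f hf
    rw [hval f hf]
    have hwt : ∀ (i : ℕ) (m : Fin k →₀ ℕ), wt (ng a) (Finsupp.cons i m) =
        - (a 0 * i) + ∑ j, a j.succ * (m j : ℤ) := by
      intro i m
      rw [hP3]
      have h3 : ng a 0 = - a 0 := rfl
      have h2 : ∀ j : Fin k, ng a j.succ = a j.succ := fun j => rfl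
      simp only [h2, h3]
      ring
    have hle : ∀ m ∈ (Phi k f).support, monO (ng a) f ≤
        pr a (zs none ((Phi k f).coeff m)) (fun j => (m j : ℤ)) := by
      intro m hm
      have h1 : f.coeff (Finsupp.cons ((Phi k f).coeff m).natDegree m) ≠ 0 := by
        rw [← hP1]
        exact Polynomial.leadingCoeff_ne_zero.2 (MvPolynomial.mem_support_iff.1 hm)
      have h2 := Mon_le (ng a) hf (MvPolynomial.mem_support_iff.2 h1)
      rw [hwt] at h2
      unfold pr zs
      simp only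
      linarith
    refine ⟨hle, ?_⟩
    obtain ⟨μ, hμ, hμ2⟩ := Mon_ex (ng a) hf
    obtain ⟨i, m, rfl⟩ : ∃ i m, μ = Finsupp.cons i m := ⟨μ 0, μ.tail, (Finsupp.cons_tail μ).symm⟩
    have h1 : ((Phi k f).coeff m).coeff i ≠ 0 := by
      rw [hP1]
      exact MvPolynomial.mem_support_iff.1 hμ
    have hm : m ∈ (Phi k f).support := by
      rw [MvPolynomial.mem_support_iff]
      intro h
      rw [h, Polynomial.coeff_zero] at h1
      exact h1 rfl
    refine ⟨m, hm, le_antisymm (hle m hm) ?_⟩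
    rw [hμ2, hwt]
    unfold pr zs
    simp only
    have h2 : (i : ℤ) ≤ (((Phi k f).coeff m).natDegree : ℤ) := by
      exact_mod_cast Polynomial.le_natDegree_of_ne_zero h1
    have h3 := mul_le_mul_of_nonneg_left h2 ha
    linarith

/-- module EX -/
theorem hEX (hPHI : StPHI) (hExt : StExt) (hMon : StMon) (hTorV : StTorV) (hTau : StTau) : StEX := by
  intro k s a u ha hu
  cases s with
  | none => exact EX_none hPHI hExt hMon hTorV k a u ha hu
  | some p => exact EX_some hPHI hExt hMon hTorV hTau k p a u ha hu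

end Pool.Agent.Helper1.CO
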